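import Pool.Agent.H960.FV.All

/-!
# MP_fe4781_pr, Q1: limits of exponentially uniformly ergodic PCA

`H960FV.Z d = Fin d → ℤ`.  A PCA is given by finite types `S` (states, not empty) and `A` (noise) with
a probability measure `α` on `A`, finite sets `F`, `F'` of sites and `f : (F → S) → (F' → A) → S`.
`H960FV.evo f W ξ i0 n` is the configuration at time `i0 + n` of the evolution with noise
`W : Z d × ℤ → A` started from `ξ` at time `i0`:
`evo f W ξ i0 0 = ξ`, `evo f W ξ i0 (n + 1) v = f (fun u => evo f W ξ i0 n (v + u)) (fun u => W (v + u, i0 + n))`.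
The noise is iid: `Measure.infinitePi fun _ : Z d × ℤ => α`.

* First hypothesis: `μ` is the limiting distribution; for every starting configuration all cylinder
  probabilities converge to those of `μ` (this is weak convergence, `S` being finite).
* Second hypothesis: exponential uniform ergodicity, `P(τ_0 > n) ≤ C exp (-c n)`, where `τ_0 > n` means
  that for all `i ≤ n` the state `evo f W ξ (-i) i 0` depends on `ξ`.

Conclusion: there are a finite type `T`, a probability measure `ν` on it and a measurable map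
`φ` which commutes with all translations, maps the iid field `Measure.infinitePi fun _ => ν` to `μ`, and whose
coding radius `R` (the least `r` such that all `x'` which agree with `x` on the `ℓ¹` ball of radius `r` have
`φ x' 0 = φ x 0`) satisfies `P(R > r) ≤ C exp (-c r)` for all `r`.
-/

open MeasureTheory Filter Topology

namespace Pool.Agent.Results.MP_fe4781_pr.ExponentialTails

open H960FV

theorem result (d : ℕ) [NeZero d] (S A : Type) [Finite S] [Nonempty S]
    [MeasurableSpace S] [MeasurableSingletonClass S] [Finite A] [MeasurableSpace A]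
    [MeasurableSingletonClass A] (α : Measure A) [IsProbabilityMeasure α]
    (F F' : Finset (Fin d → ℤ)) (f : (F → S) → (F' → A) → S)
    (μ : Measure ((Fin d → ℤ) → S)) [IsProbabilityMeasure μ]
    (hlim : ∀ (ξ : (Fin d → ℤ) → S) (Λ : Finset (Fin d → ℤ)) (η : (Fin d → ℤ) → S),
      Tendsto (fun n : ℕ => (Measure.infinitePi fun _ : (Fin d → ℤ) × ℤ => α).real
        {W | ∀ v ∈ Λ, evo f W ξ 0 n v = η v}) atTop (𝓝 (μ.real {x | ∀ v ∈ Λ, x v = η v})))
    (herg : ∃ C c : ℝ, 0 < c ∧ ∀ n : ℕ,
      (Measure.infinitePi fun _ : (Fin d → ℤ) × ℤ => α).real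
        {W | ∀ i : ℕ, i ≤ n → ∃ ξ ξ' : (Fin d → ℤ) → S,
          evo f W ξ (-(i : ℤ)) i 0 ≠ evo f W ξ' (-(i : ℤ)) i 0} ≤ C * Real.exp (-c * n)) :
    ∃ (T : Type) (_ : Finite T) (_ : MeasurableSpace T) (_ : MeasurableSingletonClass T)
      (ν : Measure T) (_ : IsProbabilityMeasure ν)
      (φ : ((Fin d → ℤ) → T) → (Fin d → ℤ) → S),
      Measurable φ ∧
      (∀ (x : (Fin d → ℤ) → T) (w v : Fin d → ℤ), φ (fun u => x (u + w)) v = φ x (v + w)) ∧
      (Measure.infinitePi fun _ : Fin d → ℤ => ν).map φ = μ ∧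
      ∃ C c : ℝ, 0 < c ∧ ∀ r : ℕ, (Measure.infinitePi fun _ : Fin d → ℤ => ν).real
        {x | ∃ x' : (Fin d → ℤ) → T, (∀ v : Fin d → ℤ, ∑ i, |v i| ≤ (r : ℤ) → x' v = x v) ∧
          φ x' 0 ≠ φ x 0} ≤ C * Real.exp (-c * r) :=
  a_final d S A α F F' f μ hlim herg

end Pool.Agent.Results.MP_fe4781_pr.ExponentialTails
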